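import Pool.Agent.H61.SDMain

set_option autoImplicit false

namespace Pool.Agent.Results.MP_bf2d93_gt.Spectrum

open Pool.Agent.H61.SD

/-- A rate function is realizable in `ℝ^k` with index set `{1, 2, ...}` or the set of all integers
(equivalently, its class belongs to the sequence distortion spectrum) if and only if `k = 1` and it
is equivalent to the linear rate, or `2 ≤ k` and for some `α > 1 / k` it satisfies
`c * (n / m) ^ α * f m ≤ f n ≤ C * (n / m) * f m` for all large `m ≤ n`. -/
theorem result (k : ℕ) (hk : 1 ≤ k) (f : ℕ → ℝ) (hf : IsRateFunction f) (I : Set ℤ)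
    (hI : I = indexN ∨ I = indexZ) :
    (Realizable I f (EuclideanSpace ℝ (Fin k)) ↔
      (k = 1 ∧ LinearGrowth f) ∨ (2 ≤ k ∧ GrowthBetween (1 / (k : ℝ)) f)) ∧
    (InSpectrum I f (EuclideanSpace ℝ (Fin k)) ↔
      (k = 1 ∧ LinearGrowth f) ∨ (2 ≤ k ∧ GrowthBetween (1 / (k : ℝ)) f)) :=
  Pool.Agent.H61.SD.main k hk f hf I hI

end Pool.Agent.Results.MP_bf2d93_gt.Spectrum
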